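import Pool.Agent.H933Z.Ess.Main

set_option autoImplicit false

namespace Pool.Agent.Results.MP_ec05f5_lc.AEssNotC0

open Pool.Agent.H933Z.Ess

/-- Equivalence modulo compact operators, on all bounded operators and on the orthogonal
projections of a separable infinite-dimensional complex Hilbert space, is not Borel reducible to
`ℝ^ℕ / c₀`. -/
theorem result (H : Type*) [NormedAddCommGroup H] [InnerProductSpace ℂ H] [CompleteSpace H]
    [TopologicalSpace.SeparableSpace H] (hinf : ¬ FiniteDimensional ℂ H) :
    ¬ ReducesToC0 (opBorel H) (fun a c => IsCompactOperator (a - c : H →L[ℂ] H)) ∧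
    ¬ ReducesToC0 (X := {p : H →L[ℂ] H // IsStarProjection p})
      (MeasurableSpace.comap Subtype.val (opBorel H))
      (fun p q => IsCompactOperator (p.1 - q.1 : H →L[ℂ] H)) :=
  ⟨not_reduces_all hinf, not_reduces_proj hinf⟩

end Pool.Agent.Results.MP_ec05f5_lc.AEssNotC0
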